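import Pool.Agent.EulerianInv.Poly

/-!
# The Hessenberg minors of the reversed higher order Eulerian triangle
-/

set_option autoImplicit false

open Polynomial Finset

namespace Pool.Agent.EulerianInv

lemma coeff_X_deriv (f : ℤ[X]) (k : ℕ) : (X * derivative f).coeff k = (k : ℤ) * f.coeff k := by
  cases k with
  | zero => simp
  | succ k =>
    rw [coeff_X_mul, coeff_derivative]
    push_cast
    ring

lemma coeff_S_zero (ρ : ℤ) (n : ℕ) :
    (S ρ (n + 1)).coeff 0 = - (1 + ρ * ((n : ℤ) + 1)) * (S ρ n).coeff 0 := by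
  rw [S]
  have e : X * (1 + X) * derivative (S ρ n) = X * derivative (S ρ n) + X * (X * derivative (S ρ n)) := by
    ring
  rw [e, coeff_sub, coeff_add, coeff_neg, coeff_add, coeff_C_mul, coeff_C_mul, coeff_X_deriv]
  simp
  ring

lemma coeff_S_succ (ρ : ℤ) (n k : ℕ) :
    (S ρ (n + 1)).coeff (k + 1) = - ((k : ℤ) + 2 + ρ * ((n : ℤ) + 1)) * (S ρ n).coeff (k + 1)
      + ((n : ℤ) + 1 - k) * (S ρ n).coeff k := by
  rw [S]
  have e : X * (1 + X) * derivative (S ρ n) = X * derivative (S ρ n) + X * (X * derivative (S ρ n)) := by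
    ring
  rw [e, coeff_sub, coeff_add, coeff_neg, coeff_add, coeff_C_mul, coeff_C_mul, coeff_X_deriv,
    coeff_X_mul, coeff_X_mul, coeff_X_deriv]
  push_cast
  ring

/-- the entries: `T n k = E (n+1) (n-k)` for `k ≤ n` -/
def T (E : ℕ → ℕ → ℤ) (n k : ℕ) : ℤ := if k ≤ n then E (n + 1) (n - k) else 0

section
variable (r : ℕ) (E : ℕ → ℕ → ℤ)
  (h0 : ∀ k : ℕ, E 0 k = if k = 0 then 1 else 0)
  (h1 : ∀ n : ℕ, E (n + 1) 0 = E n 0)
  (h2 : ∀ n k : ℕ, E (n + 1) (k + 1) =
            ((k : ℤ) + 2) * E n (k + 1) + ((r : ℤ) * (n : ℤ) - (k : ℤ)) * E n k)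

include h0 h1 in
lemma E_zero (n : ℕ) : E n 0 = 1 := by
  induction n with
  | zero => rw [h0]; simp
  | succ n ih => rw [h1, ih]

include h0 h2 in
lemma E_vanish (n k : ℕ) (hk : n + 1 ≤ k) : E (n + 1) k = 0 := by
  induction n generalizing k with
  | zero =>
    obtain ⟨j, rfl⟩ : ∃ j, k = j + 1 := ⟨k - 1, by omega⟩
    rw [h2, h0, h0, if_neg (by omega)]
    rcases Nat.eq_zero_or_pos j with hj | hj
    · subst hj
      simp
    · rw [if_neg (by omega)]
      simp
  | succ n ih =>
    obtain ⟨j, rfl⟩ : ∃ j, k = j + 1 := ⟨k - 1, by omega⟩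
    rw [h2, ih (j + 1) (by omega), ih j (by omega)]
    ring

include h0 h1 h2 in
lemma coeff_S (n k : ℕ) : (S ((r : ℤ) - 1) n).coeff k = (-1) ^ (n + k) * T E n k := by
  induction n generalizing k with
  | zero =>
    cases k with
    | zero =>
      simp [S, T, E_zero E h0 h1]
    | succ k =>
      simp only [S, T]
      rw [if_neg (by omega)]
      simp [coeff_one]
  | succ n ih =>
    cases k with
    | zero =>
      rw [coeff_S_zero, ih]
      unfold T
      rw [if_pos (by omega), if_pos (by omega)]
      have e1 : n + 1 - 0 = n + 1 := by omega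
      have e2 : n - 0 = n := by omega
      rw [e1, e2, h2, E_vanish r E h0 h2 n (n + 1) le_rfl]
      push_cast
      rw [add_zero, add_zero, pow_succ]
      ring
    | succ k =>
      rw [coeff_S_succ, ih, ih]
      unfold T
      rcases lt_trichotomy n k with hnk | hnk | hnk
      · rw [if_neg (by omega), if_neg (by omega), if_neg (by omega)]
        ring
      · subst hnk
        rw [if_neg (by omega), if_pos le_rfl, if_pos le_rfl, Nat.sub_self, Nat.sub_self,
          E_zero E h0 h1, E_zero E h0 h1]
        have e : (-1 : ℤ) ^ (n + 1 + (n + 1)) = (-1) ^ (n + n) := by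
          have : n + 1 + (n + 1) = (n + n) + 2 := by omega
          rw [this, pow_add]
          norm_num
        rw [e]
        ring
      · rw [if_pos (by omega), if_pos (by omega), if_pos (by omega)]
        obtain ⟨d, rfl⟩ : ∃ d, n = k + 1 + d := ⟨n - (k + 1), by omega⟩
        have e1 : k + 1 + d - (k + 1) = d := by omega
        have e2 : k + 1 + d - k = d + 1 := by omega
        have e3 : k + 1 + d + 1 - (k + 1) = d + 1 := by omega
        rw [e1, e2, e3, h2 (k + 1 + d + 1) d]
        have p1 : (-1 : ℤ) ^ (k + 1 + d + (k + 1)) = - (-1) ^ (k + 1 + d + k) := by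
          have : k + 1 + d + (k + 1) = (k + 1 + d + k) + 1 := by omega
          rw [this, pow_succ]
          ring
        have p2 : (-1 : ℤ) ^ (k + 1 + d + 1 + (k + 1)) = (-1) ^ (k + 1 + d + k) := by
          have : k + 1 + d + 1 + (k + 1) = (k + 1 + d + k) + 2 := by omega
          rw [this, pow_add]
          norm_num
        rw [p1, p2]
        push_cast
        ring

end

/-- A Cramer type computation -/
lemma det_hessenberg (t : ℕ → ℕ → ℤ) (ht1 : ∀ n, t n n = 1) (ht0 : ∀ n k, n < k → t n k = 0)
    (s m : ℕ) (w : Fin (m + 1) → ℤ) (wm : w (Fin.last m) = (-1) ^ m)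
    (hw : ∀ j : Fin m, ∑ i : Fin (m + 1), w i * t (s + i) (s + j) = 0) :
    (Matrix.of fun i j : Fin m => t (s + 1 + i) (s + j)).det = w 0 := by
  set M : Matrix (Fin (m + 1)) (Fin (m + 1)) ℤ :=
    Matrix.of fun i j => (Fin.cons (if i = 0 then 1 else 0) (fun j : Fin m => t (s + i) (s + j)) :
      Fin (m + 1) → ℤ) j with hM
  have hM0 : ∀ i, M i 0 = if i = 0 then 1 else 0 := fun i => by simp [hM]
  have hMs : ∀ i (j : Fin m), M i j.succ = t (s + i) (s + j) := fun i j => by simp [hM]
  -- expansion along the first column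
  have d1 : M.det = (Matrix.of fun i j : Fin m => t (s + 1 + i) (s + j)).det := by
    rw [Matrix.det_succ_column_zero, Finset.sum_eq_single 0]
    · rw [hM0]
      simp only [Fin.val_zero, pow_zero, if_true, one_mul]
      congr 1
      ext i j
      rw [Matrix.submatrix_apply, hMs, Matrix.of_apply]
      congr 1
      simp
      omega
    · intro i _ hi
      rw [hM0, if_neg hi]
      simp
    · intro h
      exact absurd (Finset.mem_univ _) h
  -- the row replacement
  have d2 := Matrix.det_updateRow_sum M (Fin.last m) w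
  have hrow : (∑ k, w k • M k) = Pi.single 0 (w 0) := by
    ext j
    rw [Finset.sum_apply]
    refine Fin.cases ?_ ?_ j
    · simp [hM0]
    · intro j
      have : ∀ i, (w i • M i) j.succ = w i * t (s + i) (s + j) := by
        intro i
        rw [Pi.smul_apply, smul_eq_mul, hMs]
      rw [Finset.sum_congr rfl (fun i _ => this i), hw j]
      simp
  rw [hrow, smul_eq_mul, wm] at d2
  have d3 : (M.updateRow (Fin.last m) (Pi.single 0 (w 0))).det = (-1) ^ m * w 0 := by
    rw [Matrix.det_succ_row _ (Fin.last m), Finset.sum_eq_single 0]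
    · rw [Matrix.updateRow_self]
      have e : ((M.updateRow (Fin.last m) (Pi.single 0 (w 0))).submatrix (Fin.last m).succAbove
          (Fin.succAbove 0)).det = 1 := by
        rw [Matrix.det_of_isLowerTriangular]
        · apply Finset.prod_eq_one
          intro i _
          rw [Matrix.submatrix_apply, Matrix.updateRow_ne (Fin.succAbove_ne _ _)]
          simp only [Fin.succAbove_last, Fin.succAbove_zero]
          rw [hMs]
          simp [ht1]
        · intro i j hij
          rw [Matrix.submatrix_apply, Matrix.updateRow_ne (Fin.succAbove_ne _ _)]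
          simp only [Fin.succAbove_last, Fin.succAbove_zero]
          rw [hMs]
          apply ht0
          have : (i : ℕ) < j := by
            simpa using hij
          simp
          omega
      rw [e]
      simp
    · intro j _ hj
      rw [Matrix.updateRow_self, Pi.single_eq_of_ne hj]
      simp
    · intro h
      exact absurd (Finset.mem_univ _) h
  rw [d3] at d2
  have hne : ((-1 : ℤ) ^ m) ≠ 0 := pow_ne_zero _ (by norm_num)
  rw [← d1]
  exact (mul_left_cancel₀ hne d2).symm

end Pool.Agent.EulerianInv
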