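import Mathlib

/-!
# The polynomials `S n` of the reversed higher order Eulerian triangle

`S (n+1) = -X (1+X) (S n)' + (n+1) X (S n) - (1 + ρ (n+1)) (S n)`, `S 0 = 1`.
Main result: multiplication by `X` has a matrix with positive entries in the basis `S 0, S 1, ...`.
-/

set_option autoImplicit false

open Polynomial Finset

namespace Pool.Agent.EulerianInv

/-- the row polynomials (with alternating signs) -/
noncomputable def S (ρ : ℤ) : ℕ → ℤ[X]
  | 0 => 1
  | n + 1 => -(X * (1 + X) * derivative (S ρ n)) + C ((n : ℤ) + 1) * (X * S ρ n)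
      - C (1 + ρ * ((n : ℤ) + 1)) * S ρ n

/-- the operator `K₀ f = -X (1+X) f' + X f - f` -/
noncomputable def K (f : ℤ[X]) : ℤ[X] := -(X * (1 + X) * derivative f) + X * f - f

lemma S_succ (ρ : ℤ) (n : ℕ) :
    S ρ (n + 1) = K (S ρ n) + C (n : ℤ) * (X * S ρ n) - C (ρ * ((n : ℤ) + 1)) * S ρ n := by
  rw [S, K]
  simp only [C_add, C_mul, C_1]
  ring

lemma K_S (ρ : ℤ) (n : ℕ) :
    K (S ρ n) = S ρ (n + 1) - C (n : ℤ) * (X * S ρ n) + C (ρ * ((n : ℤ) + 1)) * S ρ n := by
  rw [S_succ]; ring

lemma X_mul_K (f : ℤ[X]) : X * K f = K (X * f) + X * (1 + X) * f := by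
  unfold K
  rw [derivative_mul, derivative_X]
  ring

lemma K_sum (k : ℕ) (n : ℕ → ℤ) (f : ℕ → ℤ[X]) :
    K (∑ c ∈ range k, C (n c) * f c) = ∑ c ∈ range k, C (n c) * K (f c) := by
  unfold K
  simp only [derivative_sum, derivative_C_mul, Finset.mul_sum, mul_sub, mul_add,
    Finset.sum_sub_distrib, Finset.sum_add_distrib, mul_neg, Finset.sum_neg_distrib]
  congr 1
  congr 1
  · congr 1
    exact Finset.sum_congr rfl (fun c _ => by ring)
  · exact Finset.sum_congr rfl (fun c _ => by ring)

/-- the new row of the matrix of multiplication by `X` -/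
def newRow (ρ : ℤ) (k : ℕ) (n : ℕ → ℕ → ℤ) (c : ℕ) : ℤ :=
  (if c = 0 then 0 else n k (c - 1)) + (1 + ρ * ((c : ℤ) - k)) * n k c
    + ∑ d ∈ range (k + 1), ((k : ℤ) + 1 - d) * n k d * n d c

/-- the property of a row: positive entries, supported on `c ≤ k + 1`, last entry `1`, and the expansion of
`X * S k` -/
def RowOk (ρ : ℤ) (k : ℕ) (n : ℕ → ℤ) : Prop :=
  (∀ c, c ≤ k + 1 → 0 < n c) ∧ (∀ c, k + 1 < c → n c = 0) ∧ n (k + 1) = 1 ∧ ρ * k ≤ n k ∧
    X * S ρ k = ∑ c ∈ range (k + 2), C (n c) * S ρ c

lemma expand_next (ρ : ℤ) (k : ℕ) (n : ℕ → ℕ → ℤ) (h : ∀ d ≤ k, RowOk ρ d (n d)) :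
    X * S ρ (k + 1) = ∑ c ∈ range (k + 3), C (newRow ρ k n c) * S ρ c := by
  have hk := (h k le_rfl).2.2.2.2
  have hk0 := (h k le_rfl).2.1
  -- step 1: the operator identity
  have e1 : X * S ρ (k + 1) = K (X * S ρ k) + X * S ρ k + C ((k : ℤ) + 1) * (X * (X * S ρ k))
      - C (ρ * ((k : ℤ) + 1)) * (X * S ρ k) := by
    rw [S_succ, mul_sub, mul_add, X_mul_K]
    simp only [C_add, C_mul, C_1]
    ring
  rw [e1]
  -- step 2: insert the expansion
  have e2 : K (X * S ρ k) + X * S ρ k + C ((k : ℤ) + 1) * (X * (X * S ρ k))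
      - C (ρ * ((k : ℤ) + 1)) * (X * S ρ k)
      = (∑ c ∈ range (k + 2), C (n k c) * S ρ (c + 1))
        + (∑ c ∈ range (k + 2), C ((1 + ρ * ((c : ℤ) - k)) * n k c) * S ρ c)
        + (∑ c ∈ range (k + 2), C (((k : ℤ) + 1 - c) * n k c) * (X * S ρ c)) := by
    rw [hk, K_sum]
    simp only [Finset.mul_sum]
    rw [← Finset.sum_add_distrib, ← Finset.sum_add_distrib, ← Finset.sum_sub_distrib,
      ← Finset.sum_add_distrib, ← Finset.sum_add_distrib]
    apply Finset.sum_congr rfl
    intro c _
    rw [K_S]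
    simp only [C_add, C_mul, C_1, C_sub]
    ring
  rw [e2]
  -- step 3: the three sums
  have a1 : (∑ c ∈ range (k + 2), C (n k c) * S ρ (c + 1))
      = ∑ c ∈ range (k + 3), C (if c = 0 then 0 else n k (c - 1)) * S ρ c := by
    rw [Finset.sum_range_succ' _ (k + 2)]
    simp
  have a2 : (∑ c ∈ range (k + 2), C ((1 + ρ * ((c : ℤ) - k)) * n k c) * S ρ c)
      = ∑ c ∈ range (k + 3), C ((1 + ρ * ((c : ℤ) - k)) * n k c) * S ρ c := by
    rw [Finset.sum_range_succ _ (k + 2), hk0 (k + 2) (by omega)]
    simp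
  have a3 : (∑ c ∈ range (k + 2), C (((k : ℤ) + 1 - c) * n k c) * (X * S ρ c))
      = ∑ c ∈ range (k + 3), C (∑ d ∈ range (k + 1), ((k : ℤ) + 1 - d) * n k d * n d c) * S ρ c := by
    rw [Finset.sum_range_succ _ (k + 1)]
    have z : C (((k : ℤ) + 1 - ((k + 1 : ℕ) : ℤ)) * n k (k + 1)) * (X * S ρ (k + 1)) = 0 := by
      push_cast
      simp
    rw [z, add_zero]
    have b1 : ∀ d ∈ range (k + 1), C (((k : ℤ) + 1 - d) * n k d) * (X * S ρ d)
        = ∑ c ∈ range (k + 3), C (((k : ℤ) + 1 - d) * n k d * n d c) * S ρ c := by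
      intro d hd
      have hd' : d ≤ k := by
        have := Finset.mem_range.1 hd
        omega
      rw [(h d hd').2.2.2.2, Finset.mul_sum]
      have hsub : range (d + 2) ⊆ range (k + 3) := by
        intro x hx
        have := Finset.mem_range.1 hx
        exact Finset.mem_range.2 (by omega)
      rw [← Finset.sum_subset hsub]
      · apply Finset.sum_congr rfl
        intro c _
        simp only [C_mul]
        ring
      · intro c _ hc
        have hc' : d + 1 < c := by
          by_contra hcon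
          exact hc (Finset.mem_range.2 (by omega))
        rw [(h d hd').2.1 c hc']
        simp
    rw [Finset.sum_congr rfl b1, Finset.sum_comm]
    apply Finset.sum_congr rfl
    intro c _
    rw [map_sum, Finset.sum_mul]
  rw [a1, a2, a3, ← Finset.sum_add_distrib, ← Finset.sum_add_distrib]
  apply Finset.sum_congr rfl
  intro c _
  unfold newRow
  simp only [C_add]
  ring

lemma rowOk_next (ρ : ℤ) (hρ : 0 ≤ ρ) (k : ℕ) (n : ℕ → ℕ → ℤ) (h : ∀ d ≤ k, RowOk ρ d (n d)) :
    RowOk ρ (k + 1) (newRow ρ k n) := by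
  obtain ⟨hpos, hzero, hone, hdiag, -⟩ := h k le_rfl
  have hnn : ∀ d ≤ k, ∀ c, 0 ≤ n d c := by
    intro d hd c
    by_cases hc : c ≤ d + 1
    · exact ((h d hd).1 c hc).le
    · rw [(h d hd).2.1 c (by omega)]
  -- the sum without its last term is nonnegative
  have hsum : ∀ c, ∑ d ∈ range (k + 1), ((k : ℤ) + 1 - d) * n k d * n d c ≥ n k k * n k c := by
    intro c
    rw [Finset.sum_range_succ]
    have : 0 ≤ ∑ d ∈ range k, ((k : ℤ) + 1 - d) * n k d * n d c := by
      apply Finset.sum_nonneg
      intro d hd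
      have hd' := Finset.mem_range.1 hd
      have h1 : (0 : ℤ) ≤ (k : ℤ) + 1 - d := by
        have : (d : ℤ) < k := by exact_mod_cast hd'
        linarith
      exact mul_nonneg (mul_nonneg h1 (hnn k le_rfl d)) (hnn d hd'.le c)
    have e : ((k : ℤ) + 1 - (k : ℤ)) * n k k * n k c = n k k * n k c := by ring
    rw [e]
    linarith
  have hfirst : ∀ c, 0 ≤ (if c = 0 then 0 else n k (c - 1)) := by
    intro c
    split_ifs
    · exact le_rfl
    · exact hnn k le_rfl _
  have hz2 : ∀ c, k + 1 < c → ∑ d ∈ range (k + 1), ((k : ℤ) + 1 - d) * n k d * n d c = 0 := by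
    intro c hc
    apply Finset.sum_eq_zero
    intro d hd
    have hd' := Finset.mem_range.1 hd
    rw [(h d (by omega)).2.1 c (by omega), mul_zero]
  refine ⟨?_, ?_, ?_, ?_, expand_next ρ k n h⟩
  · intro c hc
    unfold newRow
    rcases Nat.lt_or_ge k c with hck | hck
    · -- c = k+1 or c = k+2
      rcases Nat.lt_or_ge (k + 1) c with hck2 | hck2
      · have hc2 : c = k + 2 := by omega
        subst hc2
        have h3 : (if k + 2 = 0 then (0 : ℤ) else n k (k + 2 - 1)) = 1 := by
          rw [if_neg (by omega)]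
          have : k + 2 - 1 = k + 1 := by omega
          rw [this, hone]
        rw [h3, hzero (k + 2) (by omega), hz2 (k + 2) (by omega)]
        norm_num
      · have hc2 : c = k + 1 := by omega
        subst hc2
        have h3 := hfirst (k + 1)
        have h4 := hsum (k + 1)
        rw [hone] at h4 ⊢
        have h5 := hpos k (by omega)
        push_cast
        have h6 : (1 + ρ * ((k : ℤ) + 1 - k)) * 1 = 1 + ρ := by ring
        rw [h6]
        linarith
    · have h3 := hfirst c
      have h4 := hsum c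
      have h5 := hpos c (by omega)
      have hcc : (0 : ℤ) ≤ c := Int.natCast_nonneg c
      have h6 : 0 < (1 + ρ * ((c : ℤ) - k) + n k k) * n k c := by
        apply mul_pos _ h5
        nlinarith [mul_nonneg hρ hcc]
      nlinarith
  · intro c hc
    unfold newRow
    rw [if_neg (by omega), hzero (c - 1) (by omega), hzero c (by omega), hz2 c (by omega)]
    ring
  · unfold newRow
    rw [if_neg (by omega), hzero (k + 1 + 1) (by omega), hz2 (k + 1 + 1) (by omega)]
    have : k + 1 + 1 - 1 = k + 1 := by omega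
    rw [this, hone]
    ring
  · unfold newRow
    rw [if_neg (by omega)]
    have h3 : k + 1 - 1 = k := by omega
    rw [h3]
    have h4 := hsum (k + 1)
    rw [hone] at h4 ⊢
    have h5 := hpos k (by omega)
    push_cast
    have h6 : (1 + ρ * ((k : ℤ) + 1 - k)) * 1 = 1 + ρ := by ring
    rw [h6]
    linarith

lemma rowOk_zero (ρ : ℤ) (hρ : 0 ≤ ρ) : RowOk ρ 0 (fun c => if c = 0 then 1 + ρ else if c = 1 then 1 else 0) := by
  refine ⟨?_, ?_, ?_, ?_, ?_⟩
  · intro c hc
    interval_cases c
    · simp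
      linarith
    · simp
  · intro c hc
    have h1 : c ≠ 0 := by omega
    have h2 : c ≠ 1 := by omega
    simp [h1, h2]
  · simp
  · simp
    linarith
  · rw [Finset.sum_range_succ, Finset.sum_range_succ, Finset.sum_range_zero]
    simp [S]

/-- all rows of the matrix of multiplication by `X` exist and are positive -/
lemma exists_rows (ρ : ℤ) (hρ : 0 ≤ ρ) : ∀ k, ∃ n : ℕ → ℤ, RowOk ρ k n := by
  intro k
  induction k using Nat.strong_induction_on with
  | _ k ih =>
    rcases Nat.eq_zero_or_pos k with hk | hk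
    · subst hk
      exact ⟨_, rowOk_zero ρ hρ⟩
    · obtain ⟨m, rfl⟩ := Nat.exists_eq_succ_of_ne_zero hk.ne'
      have hx : ∀ d : ℕ, ∃ n : ℕ → ℤ, d ≤ m → RowOk ρ d n := by
        intro d
        by_cases hd : d ≤ m
        · obtain ⟨n, hn⟩ := ih d (by omega)
          exact ⟨n, fun _ => hn⟩
        · exact ⟨fun _ => 0, fun h => absurd h hd⟩
      choose n hn using hx
      exact ⟨_, rowOk_next ρ hρ m n (fun d hd => hn d hd)⟩

/-- the powers of `X` are positive combinations of the `S k` -/
theorem exists_pow (ρ : ℤ) (hρ : 0 ≤ ρ) (m : ℕ) :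
    ∃ u : ℕ → ℤ, (∀ c, c ≤ m → 0 < u c) ∧ (∀ c, m < c → u c = 0) ∧ u m = 1 ∧
      (X : ℤ[X]) ^ m = ∑ c ∈ range (m + 1), C (u c) * S ρ c := by
  choose n hn using exists_rows ρ hρ
  induction m with
  | zero =>
    refine ⟨fun c => if c = 0 then 1 else 0, ?_, ?_, ?_, ?_⟩
    · intro c hc
      have : c = 0 := by omega
      simp [this]
    · intro c hc
      have : c ≠ 0 := by omega
      simp [this]
    · simp
    · simp [S]
  | succ m ih =>
    obtain ⟨u, hu1, hu2, hu3, hu4⟩ := ih
    have hnn : ∀ d c, 0 ≤ n d c := by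
      intro d c
      by_cases hc : c ≤ d + 1
      · exact ((hn d).1 c hc).le
      · rw [(hn d).2.1 c (by omega)]
    refine ⟨fun c => ∑ k ∈ range (m + 1), u k * n k c, ?_, ?_, ?_, ?_⟩
    · intro c hc
      show 0 < ∑ k ∈ range (m + 1), u k * n k c
      rw [Finset.sum_range_succ]
      have h1 : 0 ≤ ∑ k ∈ range m, u k * n k c := by
        apply Finset.sum_nonneg
        intro k hk
        have := Finset.mem_range.1 hk
        exact mul_nonneg (hu1 k (by omega)).le (hnn k c)
      have h2 : 0 < u m * n m c := by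
        rw [hu3, one_mul]
        exact (hn m).1 c hc
      linarith
    · intro c hc
      show ∑ k ∈ range (m + 1), u k * n k c = 0
      apply Finset.sum_eq_zero
      intro k hk
      have := Finset.mem_range.1 hk
      rw [(hn k).2.1 c (by omega), mul_zero]
    · show ∑ k ∈ range (m + 1), u k * n k (m + 1) = 1
      rw [Finset.sum_range_succ, hu3, (hn m).2.2.1]
      have h1 : ∑ k ∈ range m, u k * n k (m + 1) = 0 := by
        apply Finset.sum_eq_zero
        intro k hk
        have := Finset.mem_range.1 hk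
        rw [(hn k).2.1 (m + 1) (by omega), mul_zero]
      rw [h1]
      ring
    · rw [pow_succ, hu4, Finset.sum_mul]
      have e : ∀ k ∈ range (m + 1), C (u k) * S ρ k * X
          = ∑ c ∈ range (m + 1 + 1), C (u k * n k c) * S ρ c := by
        intro k hk
        have hk' := Finset.mem_range.1 hk
        have e1 : C (u k) * S ρ k * X = C (u k) * (X * S ρ k) := by ring
        rw [e1, (hn k).2.2.2.2, Finset.mul_sum]
        have hsub : range (k + 2) ⊆ range (m + 1 + 1) := by
          intro x hx
          have := Finset.mem_range.1 hx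
          exact Finset.mem_range.2 (by omega)
        rw [← Finset.sum_subset hsub]
        · apply Finset.sum_congr rfl
          intro c _
          simp only [C_mul]
          ring
        · intro c _ hc
          have hc' : k + 1 < c := by
            by_contra hcon
            exact hc (Finset.mem_range.2 (by omega))
          rw [(hn k).2.1 c hc']
          simp
      rw [Finset.sum_congr rfl e, Finset.sum_comm]
      apply Finset.sum_congr rfl
      intro c _
      rw [map_sum, Finset.sum_mul]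

end Pool.Agent.EulerianInv
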